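import Pool.Agent.Helper53.AE.GoalsC

set_option autoImplicit false

open scoped ComplexOrder Topology
open Filter TopologicalSpace

namespace Pool.Agent.Helper36.AE

open Pool.Agent.Helper53.AE

section

variable {J A O K M : Type} [NonUnitalCStarAlgebra J]
  [CStarAlgebra A] [CStarAlgebra O] [NonUnitalCStarAlgebra K] [CStarAlgebra M]
  {D : NonUnitalStarSubalgebra ℂ M} {k : K →⋆ₙₐ[ℂ] M} {u : J →⋆ₙₐ[ℂ] A}
  {T : J →ₗ[ℂ] O →ₗ[ℂ] K}

theorem uniq (hE : Env M D) (hkD : ∀ d, d ∈ D ↔ d ∈ Set.range k)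
    (hnd : ∀ (d : K) (ε : ℝ), 0 < ε → ∃ a : J, ‖T a 1 * d - d‖ < ε ∧ ‖d * T a 1 - d‖ < ε)
    (m m' : M) (h : ∀ j d, m * k (T j 1 * d) = m' * k (T j 1 * d)) : m = m' := by
  rw [← sub_eq_zero]
  apply hE.ess
  intro w hw
  obtain ⟨d, rfl⟩ := (hkD w).1 hw
  rw [← norm_le_zero_iff]
  apply le_of_forall_pos_le_add
  intro ε hε
  obtain ⟨a, ha, -⟩ := hnd d (ε / (‖m - m'‖ + 1)) (by positivity)
  have h1 : (m - m') * k d = -((m - m') * k (T a 1 * d - d)) := by
    rw [map_sub, mul_sub, sub_mul m m' (k (T a 1 * d)), h a d]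
    simp
  rw [h1, norm_neg, zero_add]
  have h2 : ‖k (T a 1 * d - d)‖ ≤ ‖T a 1 * d - d‖ := NonUnitalStarAlgHom.norm_apply_le k _
  calc ‖(m - m') * k (T a 1 * d - d)‖ ≤ ‖m - m'‖ * ‖k (T a 1 * d - d)‖ := norm_mul_le _ _
    _ ≤ ‖m - m'‖ * (ε / (‖m - m'‖ + 1)) := by gcongr; exact h2.trans ha.le
    _ ≤ (‖m - m'‖ + 1) * (ε / (‖m - m'‖ + 1)) := by gcongr; linarith
    _ = ε := by field_simp

end

theorem t : S_THB := by
  intro J A O K M _ _ _ _ _ D k u T hE hk hkD hu hid hT hnd hΘ t₁ t₂ hCz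
  choose Θ hΘ using hΘ
  have hu' : ∀ a : A, ∀ j : J, ∃ j', u j' = a * u j := hid
  have hU := uniq (T := T) hE hkD hnd
  -- multiplicativity
  have hmul : ∀ a b x y, Θ a x * Θ b y = Θ (a * b) (x * y) := by
    intro a b x y
    apply hU
    intro j d
    obtain ⟨j', hj'⟩ := hid b j
    obtain ⟨j'', hj''⟩ := hid a j'
    rw [mul_assoc, hΘ b y j j' 1 d hj', hΘ a x j' j'' _ d hj'',
      hΘ (a * b) (x * y) j j'' 1 d (by rw [hj'', hj', mul_assoc]), mul_assoc x y 1]
  have hone : Θ 1 1 = 1 := by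
    apply hU
    intro j d
    rw [hΘ 1 1 j j 1 d (by rw [one_mul]), mul_one, one_mul]
  have haddl : ∀ a b x, Θ (a + b) x = Θ a x + Θ b x := by
    intro a b x
    apply hU
    intro j d
    obtain ⟨j', hj'⟩ := hid a j
    obtain ⟨j'', hj''⟩ := hid b j
    rw [add_mul, hΘ a x j j' 1 d hj', hΘ b x j j'' 1 d hj'',
      hΘ (a + b) x j (j' + j'') 1 d (by rw [map_add, hj', hj'', add_mul]), ← map_add, ← add_mul,
      map_add T, LinearMap.add_apply]
  have haddr : ∀ a x y, Θ a (x + y) = Θ a x + Θ a y := by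
    intro a x y
    apply hU
    intro j d
    obtain ⟨j', hj'⟩ := hid a j
    rw [add_mul, hΘ a x j j' 1 d hj', hΘ a y j j' 1 d hj', hΘ a (x + y) j j' 1 d hj', ← map_add,
      ← add_mul, ← map_add, add_mul x y 1]
  have hsmul : ∀ (c : ℂ) a x, Θ (c • a) x = c • Θ a x := by
    intro c a x
    apply hU
    intro j d
    obtain ⟨j', hj'⟩ := hid a j
    rw [smul_mul_assoc, hΘ a x j j' 1 d hj',
      hΘ (c • a) x j (c • j') 1 d (by rw [map_smul, hj', smul_mul_assoc]), map_smul T,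
      LinearMap.smul_apply, smul_mul_assoc, map_smul]
  have hstar : ∀ a x, star (Θ a x) = Θ (star a) (star x) := by
    intro a x
    have key : ∀ i c j d, star (k (T i 1 * c)) * (Θ a x * k (T j 1 * d)) =
        star (k (T i 1 * c)) * (star (Θ (star a) (star x)) * k (T j 1 * d)) := by
      intro i c j d
      obtain ⟨j', hj'⟩ := hid a j
      obtain ⟨i', hi'⟩ := hid (star a) i
      have e1 : star (k (T i 1 * c)) * (star (Θ (star a) (star x)) * k (T j 1 * d)) =
          star (Θ (star a) (star x) * k (T i 1 * c)) * k (T j 1 * d) := by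
        rw [star_mul, mul_assoc]
      have e2 : star i * j' = star i' * j := by
        apply hu
        rw [map_mul, map_mul, map_star, map_star, hj', hi', star_mul, star_star, mul_assoc]
      rw [e1, hΘ (star a) (star x) i i' 1 c hi', hΘ a x j j' 1 d hj', ← map_star, ← map_star,
        ← map_mul, ← map_mul]
      congr 1
      rw [star_mul, star_mul, hT.2.1, hT.2.1, mul_assoc, mul_assoc, ← mul_assoc (T (star i) (star 1)),
        ← mul_assoc (T (star i') _), hT.1, hT.1, e2]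
      simp
    have h0 : Θ a x = star (Θ (star a) (star x)) := by
      apply hU
      intro j d
      have : star (Θ a x * k (T j 1 * d) - star (Θ (star a) (star x)) * k (T j 1 * d)) = 0 := by
        apply hU
        intro i c
        rw [zero_mul, ← star_eq_zero, star_mul, star_star, mul_sub, sub_eq_zero]
        exact key i c j d
      rw [star_eq_zero, sub_eq_zero] at this
      exact this
    rw [h0, star_star]
  have huj : ∀ j, Θ (u j) 1 = k (T j 1) := by
    intro j
    apply hU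
    intro i d
    rw [hΘ (u j) 1 i (j * i) 1 d (by rw [map_mul]), ← map_mul, ← mul_assoc, hT.1]
  have hz : Θ 0 1 = 0 := by
    have := hsmul 0 0 1
    simpa using this
  refine ⟨{ toFun := fun a => Θ a 1, map_one' := hone, map_mul' := ?_, map_zero' := hz,
            map_add' := ?_, commutes' := ?_, map_star' := ?_ }, Θ 1 t₁, Θ 1 t₂, ?_, ?_, ?_, ?_⟩
  · intro a b
    show Θ (a * b) 1 = Θ a 1 * Θ b 1
    rw [hmul, mul_one]
  · intro a b
    exact haddl a b 1
  · intro r
    show Θ (algebraMap ℂ A r) 1 = algebraMap ℂ M r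
    rw [Algebra.algebraMap_eq_smul_one, Algebra.algebraMap_eq_smul_one, hsmul, hone]
  · intro a
    show Θ (star a) 1 = star (Θ a 1)
    rw [hstar, star_one]
  · refine ⟨?_, ?_, ?_⟩
    · rw [hstar, hmul, star_one, one_mul, hCz.1, hone]
    · rw [hstar, hmul, star_one, one_mul, hCz.2.1, hone]
    · rw [hstar, hstar, hmul, hmul, star_one, one_mul, ← haddr, hCz.2.2, hone]
  · intro a
    show Θ 1 t₁ * Θ a 1 = Θ a 1 * Θ 1 t₁ ∧ Θ 1 t₂ * Θ a 1 = Θ a 1 * Θ 1 t₂
    simp only [hmul, one_mul, mul_one, and_self]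
  · intro j
    show Θ (u j) 1 ∈ D
    rw [huj, hkD]
    exact ⟨_, rfl⟩
  · intro j hj
    have hj' : Θ (u j) 1 = 0 := hj
    rw [huj] at hj'
    apply hT.2.2
    apply hk
    rw [hj', map_zero]

end Pool.Agent.Helper36.AE
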